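import Mathlib

set_option autoImplicit false

namespace Pool.Agent.H84Z.CY

open Finset

variable {V : Type} [DecidableEq V] (G : SimpleGraph V) [DecidableRel G.Adj]

/-- degree of `v` inside the vertex set `A` -/
def dg (A : Finset V) (v : V) : ℕ := (A.filter (fun u => G.Adj v u)).card

/-- deleting at most `b` vertices of `A` leaves `k` vertices of maximum degree -/
def Win (k : ℕ) (A : Finset V) (b : ℕ) : Prop :=
  ∃ S, S ⊆ A ∧ A.card ≤ S.card + b ∧
    k ≤ (S.filter (fun v => ∀ w ∈ S, dg G S w ≤ dg G S v)).card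

/-- union of the neighbourhoods -/
def nb (A W : Finset V) : Finset V := A.filter (fun x => ∃ w ∈ W, G.Adj w x)

/-- common neighbourhood -/
def cm (A W : Finset V) : Finset V := A.filter (fun x => ∀ w ∈ W, G.Adj w x)

def Clq (W : Finset V) : Prop := ∀ u ∈ W, ∀ v ∈ W, u ≠ v → G.Adj u v

def Ind (W : Finset V) : Prop := ∀ u ∈ W, ∀ v ∈ W, ¬ G.Adj u v

def Hom (W : Finset V) : Prop := Clq G W ∨ Ind G W

variable {G}

lemma Hom.mono {W W' : Finset V} (h : Hom G W) (hs : W' ⊆ W) : Hom G W' := by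
  rcases h with h | h
  · exact Or.inl fun u hu v hv => h u (hs hu) v (hs hv)
  · exact Or.inr fun u hu v hv => h u (hs hu) v (hs hv)

lemma Win.mono {k : ℕ} {A : Finset V} {b b' : ℕ} (h : Win G k A b) (hb : b ≤ b') :
    Win G k A b' := by
  obtain ⟨S, h1, h2, h3⟩ := h
  exact ⟨S, h1, by omega, h3⟩

lemma Win.del {k : ℕ} {A Y : Finset V} {b c : ℕ} (h : Win G k (A \ Y) b) (hY : Y.card ≤ c) :
    Win G k A (c + b) := by
  obtain ⟨S, h1, h2, h3⟩ := h
  refine ⟨S, h1.trans sdiff_subset, ?_, h3⟩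
  have := le_card_sdiff Y A
  omega

lemma win_of_top {k : ℕ} {A : Finset V} {D : ℕ} (h : ∀ v ∈ A, dg G A v ≤ D)
    (hk : k ≤ (A.filter (fun v => dg G A v = D)).card) : Win G k A 0 := by
  refine ⟨A, Subset.rfl, by omega, hk.trans (card_le_card ?_)⟩
  intro v hv
  rw [mem_filter] at hv ⊢
  exact ⟨hv.1, fun w hw => hv.2 ▸ h w hw⟩

lemma dg_mono {A B : Finset V} (h : A ⊆ B) (v : V) : dg G A v ≤ dg G B v :=
  card_le_card (filter_subset_filter _ h)

lemma dg_sdiff_le (A Y : Finset V) (v : V) : dg G (A \ Y) v ≤ dg G A v :=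
  dg_mono sdiff_subset v

lemma le_dg_sdiff (A Y : Finset V) (v : V) : dg G A v ≤ dg G (A \ Y) v + Y.card := by
  unfold dg
  refine le_trans (card_le_card ?_) (card_union_le _ _)
  intro x hx
  simp only [mem_filter, mem_union, mem_sdiff] at hx ⊢
  by_cases h : x ∈ Y
  · exact Or.inr h
  · exact Or.inl ⟨⟨hx.1, h⟩, hx.2⟩

lemma dg_sdiff_lt {A Y : Finset V} {v y : V} (hA : y ∈ A) (hY : y ∈ Y) (h : G.Adj v y) :
    dg G (A \ Y) v < dg G A v := by
  unfold dg
  apply card_lt_card
  refine ⟨filter_subset_filter _ sdiff_subset, fun hs => ?_⟩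
  have : y ∈ (A \ Y).filter (fun u => G.Adj v u) := hs (mem_filter.2 ⟨hA, h⟩)
  simp only [mem_filter, mem_sdiff] at this
  exact this.1.2 hY

lemma dg_sdiff_eq {A Y : Finset V} {v : V} (h : ∀ y ∈ Y, ¬ G.Adj v y) :
    dg G (A \ Y) v = dg G A v := by
  unfold dg
  congr 1
  ext x
  simp only [mem_filter, mem_sdiff]
  exact ⟨fun hx => ⟨hx.1.1, hx.2⟩, fun hx => ⟨⟨hx.1, fun hy => h x hy hx.2⟩, hx.2⟩⟩

lemma dg_le_of_subset {A B : Finset V} {v : V} (h : ∀ x ∈ A, G.Adj v x → x ∈ B) :
    dg G A v ≤ B.card := by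
  apply card_le_card
  intro x hx
  rw [mem_filter] at hx
  exact h x hx.1 hx.2

lemma exists_hit {α : Type} [DecidableEq α] (T : Finset α) (P : α → V → Prop)
    (h : ∀ v ∈ T, ∃ y, P v y) :
    ∃ Y : Finset V, Y.card ≤ T.card ∧ (∀ y ∈ Y, ∃ v ∈ T, P v y) ∧ ∀ v ∈ T, ∃ y ∈ Y, P v y := by
  induction T using Finset.induction_on with
  | empty => exact ⟨∅, by simp, by simp, by simp⟩
  | insert a T ha ih =>
    obtain ⟨Y, h1, h2, h3⟩ := ih (fun v hv => h v (mem_insert_of_mem hv))
    obtain ⟨y, hy⟩ := h a (mem_insert_self _ _)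
    refine ⟨insert y Y, ?_, ?_, ?_⟩
    · rw [card_insert_of_notMem ha]
      exact (card_insert_le _ _).trans (by omega)
    · intro z hz
      rcases mem_insert.1 hz with rfl | hz
      · exact ⟨a, mem_insert_self _ _, hy⟩
      · obtain ⟨v, hv, hp⟩ := h2 z hz
        exact ⟨v, mem_insert_of_mem hv, hp⟩
    · intro v hv
      rcases mem_insert.1 hv with rfl | hv
      · exact ⟨y, mem_insert_self _ _, hy⟩
      · obtain ⟨z, hz, hp⟩ := h3 v hv
        exact ⟨z, mem_insert_of_mem hz, hp⟩

/-- The down-process: `k` tied vertices, and every higher vertex can be lowered without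
touching them. -/
lemma down (k : ℕ) (W : Finset V) (hW : k ≤ W.card) (D : ℕ) :
    ∀ (t : ℕ) (A : Finset V), W ⊆ A → (∀ w ∈ W, dg G A w = D) → (∀ v ∈ A, dg G A v ≤ D + t) →
      (∀ X : Finset V, X.card ≤ k * t → (∀ x ∈ X, x ∉ W ∧ ∀ w ∈ W, ¬ G.Adj w x) →
        ∀ v ∈ A \ X, v ∉ W → D < dg G (A \ X) v →
          ∃ y, y ∈ A \ X ∧ y ∉ W ∧ (∀ w ∈ W, ¬ G.Adj w y) ∧ (y = v ∨ G.Adj v y)) →
      Win G k A (k * t) := by
  intro t
  induction t with
  | zero =>
    intro A hWA hD hle _
    refine (win_of_top (D := D) (by simpa using hle) (hW.trans (card_le_card ?_))).mono (by omega)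
    intro w hw
    exact mem_filter.2 ⟨hWA hw, hD w hw⟩
  | succ t ih =>
    intro A hWA hD hle hX
    by_cases hT : k ≤ (A.filter (fun v => dg G A v = D + (t + 1))).card
    · exact (win_of_top hle hT).mono (by omega)
    push Not at hT
    obtain ⟨Y, hY1, hY2, hY3⟩ := exists_hit (A.filter (fun v => dg G A v = D + (t + 1)))
      (fun v y => y ∈ A ∧ y ∉ W ∧ (∀ w ∈ W, ¬ G.Adj w y) ∧ (y = v ∨ G.Adj v y)) (by
        intro v hv
        rw [mem_filter] at hv
        have hvW : v ∉ W := fun hw => by have := hD v hw; omega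
        have := hX ∅ (by simp) (by simp) v (by simpa using hv.1) hvW (by
          rw [sdiff_empty]; omega)
        simpa using this)
    have hYW : ∀ y ∈ Y, y ∉ W ∧ ∀ w ∈ W, ¬ G.Adj w y := by
      intro y hy
      obtain ⟨v, _, hp⟩ := hY2 y hy
      exact ⟨hp.2.1, hp.2.2.1⟩
    have key : Win G k (A \ Y) (k * t) := by
      apply ih (A \ Y)
      · intro w hw
        exact mem_sdiff.2 ⟨hWA hw, fun hy => (hYW w hy).1 hw⟩
      · intro w hw
        rw [dg_sdiff_eq (fun y hy => (hYW y hy).2 w hw)]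
        exact hD w hw
      · intro v hv
        rw [mem_sdiff] at hv
        by_cases hv' : dg G A v = D + (t + 1)
        · obtain ⟨y, hy, hp⟩ := hY3 v (mem_filter.2 ⟨hv.1, hv'⟩)
          rcases hp.2.2.2 with rfl | hadj
          · exact absurd hy hv.2
          · have := dg_sdiff_lt hp.1 hy hadj
            omega
        · have := hle v hv.1
          have := dg_sdiff_le (G := G) A Y v
          omega
      · intro X hXc hXW v hv hvW hlt
        have e : (A \ Y) \ X = A \ (Y ∪ X) := by rw [sdiff_sdiff_left, sup_eq_union]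
        rw [e] at hv hlt ⊢
        apply hX (Y ∪ X) _ _ v hv hvW hlt
        · have := card_union_le Y X
          have : k * (t + 1) = k * t + k := by ring
          omega
        · intro x hx
          rcases mem_union.1 hx with hx | hx
          · exact hYW x hx
          · exact hXW x hx
    have := key.del (c := k) (by omega)
    exact this.mono (by ring_nf; omega)

/-- Ramsey's theorem with the bound `2 ^ (a + b)`. -/
lemma ramsey : ∀ (n a b : ℕ), a + b = n → ∀ F : Finset V, 2 ^ n ≤ F.card →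
    (∃ W, W ⊆ F ∧ W.card = a ∧ Clq G W) ∨ (∃ W, W ⊆ F ∧ W.card = b ∧ Ind G W) := by
  intro n
  induction n with
  | zero =>
    intro a b hab F _
    exact Or.inl ⟨∅, empty_subset _, by simp; omega, by simp [Clq]⟩
  | succ n ih =>
    intro a b hab F hF
    rcases a with _ | a
    · exact Or.inl ⟨∅, empty_subset _, by simp, by simp [Clq]⟩
    rcases b with _ | b
    · exact Or.inr ⟨∅, empty_subset _, by simp, by simp [Ind]⟩
    have hpos : 0 < F.card := lt_of_lt_of_le (by positivity) hF
    obtain ⟨v, hv⟩ := card_pos.1 hpos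
    have hsplit := card_filter_add_card_filter_not (s := F.erase v) (fun u => G.Adj v u)
    rw [card_erase_of_mem hv] at hsplit
    have h2 : 2 ^ (n + 1) = 2 * 2 ^ n := by ring
    by_cases hN : 2 ^ n ≤ ((F.erase v).filter (fun u => G.Adj v u)).card
    · rcases ih a (b + 1) (by omega) _ hN with ⟨W, hW, hc, hq⟩ | ⟨W, hW, hc, hq⟩
      · have hvW : v ∉ W := fun h => by
          have := hW h
          simp at this
        refine Or.inl ⟨insert v W, ?_, by rw [card_insert_of_notMem hvW, hc], ?_⟩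
        · intro x hx
          rcases mem_insert.1 hx with rfl | hx
          · exact hv
          · exact mem_of_mem_erase (mem_filter.1 (hW hx)).1
        · intro x hx y hy hxy
          rcases mem_insert.1 hx with rfl | hx' <;> rcases mem_insert.1 hy with rfl | hy'
          · exact absurd rfl hxy
          · exact (mem_filter.1 (hW hy')).2
          · exact (mem_filter.1 (hW hx')).2.symm
          · exact hq x hx' y hy' hxy
      · exact Or.inr ⟨W, fun x hx => mem_of_mem_erase (mem_filter.1 (hW hx)).1, hc, hq⟩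
    · have hM : 2 ^ n ≤ ((F.erase v).filter (fun u => ¬ G.Adj v u)).card := by omega
      rcases ih (a + 1) b (by omega) _ hM with ⟨W, hW, hc, hq⟩ | ⟨W, hW, hc, hq⟩
      · exact Or.inl ⟨W, fun x hx => mem_of_mem_erase (mem_filter.1 (hW hx)).1, hc, hq⟩
      · have hvW : v ∉ W := fun h => by
          have := hW h
          simp at this
        refine Or.inr ⟨insert v W, ?_, by rw [card_insert_of_notMem hvW, hc], ?_⟩
        · intro x hx
          rcases mem_insert.1 hx with rfl | hx
          · exact hv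
          · exact mem_of_mem_erase (mem_filter.1 (hW hx)).1
        · intro x hx y hy
          rcases mem_insert.1 hx with rfl | hx' <;> rcases mem_insert.1 hy with rfl | hy'
          · exact G.irrefl
          · exact (mem_filter.1 (hW hy')).2
          · exact fun h => (mem_filter.1 (hW hx')).2 h.symm
          · exact hq x hx' y hy'

lemma ramsey_hom (k : ℕ) (F : Finset V) (hF : 2 ^ (k + k) ≤ F.card) :
    ∃ W, W ⊆ F ∧ W.card = k ∧ Hom G W := by
  rcases ramsey (G := G) (k + k) k k rfl F hF with ⟨W, h1, h2, h3⟩ | ⟨W, h1, h2, h3⟩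
  · exact ⟨W, h1, h2, Or.inl h3⟩
  · exact ⟨W, h1, h2, Or.inr h3⟩

end Pool.Agent.H84Z.CY
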