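import Pool.Agent.H84Z.CY.Basic

set_option autoImplicit false
set_option linter.unusedSectionVars false

namespace Pool.Agent.H84Z.CY

open Finset

/-- load of coordinate `i` under multiplicities `m` of the types -/
def load {k : ℕ} (m : Finset (Fin k) → ℕ) (i : Fin k) : ℕ :=
  ∑ τ ∈ univ.filter (fun τ : Finset (Fin k) => i ∈ τ), m τ

def Sol {k : ℕ} (p : (Finset (Fin k) → ℕ) × (Fin k → ℕ)) : Prop :=
  ∀ i j, load p.1 i + p.2 i = load p.1 j + p.2 j

lemma load_add {k : ℕ} (m m' : Finset (Fin k) → ℕ) (i : Fin k) :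
    load (m + m') i = load m i + load m' i := by
  simp [load, sum_add_distrib]

lemma equal_mult (k : ℕ) : ∃ C : ℕ, ∀ (s : ℕ) (m : Finset (Fin k) → ℕ) (e : Fin k → ℕ),
    ∑ i, e i ≤ s → Sol (m, e) →
      ∃ m' r : Finset (Fin k) → ℕ, m = m' + r ∧ ∑ τ, m' τ ≤ C * s ∧
        ∀ i j, load r i = load r j := by
  classical
  let P : (Finset (Fin k) → ℕ) × (Fin k → ℕ) → Prop := fun p => Sol p ∧ p.2 ≠ 0
  have hfin : {p | Minimal P p}.Finite :=
    WellQuasiOrderedLE.finite_of_isAntichain (setOfPred_minimal_antichain P)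
  obtain ⟨C, hC⟩ := (hfin.image (fun p => ∑ τ, p.1 τ)).bddAbove
  refine ⟨C, ?_⟩
  intro s
  induction s with
  | zero =>
    intro m e he hs
    have h0 : ∀ i, e i = 0 := by
      intro i
      have := single_le_sum (f := e) (fun _ _ => Nat.zero_le _) (mem_univ i)
      omega
    refine ⟨0, m, by simp, by simp, fun i j => ?_⟩
    have := hs i j
    simpa [h0] using this
  | succ s ih =>
    intro m e he hs
    by_cases h0 : e = 0
    · subst h0
      refine ⟨0, m, by simp, by simp, fun i j => ?_⟩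
      have := hs i j
      simpa using this
    obtain ⟨⟨m0, e0⟩, hle, hmin⟩ := exists_minimal_le_of_wellFoundedLT P (m, e) ⟨hs, h0⟩
    have hm : m0 ≤ m := hle.1
    have hee : e0 ≤ e := hle.2
    obtain ⟨m1, rfl⟩ := exists_add_of_le hm
    obtain ⟨e1, rfl⟩ := exists_add_of_le hee
    have hs0 : Sol (m0, e0) := hmin.prop.1
    have hne : e0 ≠ 0 := hmin.prop.2
    have hs1 : Sol (m1, e1) := by
      intro i j
      have a1 := hs i j
      have a2 := hs0 i j
      simp only [load_add, Pi.add_apply] at a1 a2 ⊢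
      omega
    have hsum : ∑ i, e1 i ≤ s := by
      have : ∃ i, e0 i ≠ 0 := by
        by_contra hcon
        push Not at hcon
        exact hne (funext hcon)
      obtain ⟨i, hi⟩ := this
      have h1 := single_le_sum (f := e0) (fun _ _ => Nat.zero_le _) (mem_univ i)
      simp only [Pi.add_apply, sum_add_distrib] at he
      omega
    obtain ⟨m', r, h1, h2, h3⟩ := ih m1 e1 hsum hs1
    refine ⟨m0 + m', r, by rw [h1, add_assoc], ?_, h3⟩
    have hb : ∑ τ, m0 τ ≤ C := hC ⟨(m0, e0), hmin, rfl⟩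
    simp only [Pi.add_apply, sum_add_distrib]
    have : C * (s + 1) = C * s + C := by ring
    omega

lemma realize {α β : Type} [DecidableEq α] [Fintype β] [DecidableEq β] (P : Finset α) (f : α → β)
    (m : β → ℕ) (hm : ∀ b, m b ≤ (P.filter (fun x => f x = b)).card) :
    ∃ Y, Y ⊆ P ∧ ∀ b, (Y.filter (fun x => f x = b)).card = m b := by
  have h : ∀ b, ∃ t, t ⊆ P.filter (fun x => f x = b) ∧ t.card = m b := fun b =>
    exists_subset_card_eq (hm b)
  choose t ht1 ht2 using h
  refine ⟨univ.biUnion t, ?_, fun b => ?_⟩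
  · intro x hx
    obtain ⟨b, _, hb⟩ := mem_biUnion.1 hx
    exact (mem_filter.1 (ht1 b hb)).1
  · rw [← ht2 b]
    congr 1
    ext x
    simp only [mem_filter, mem_biUnion, mem_univ, true_and]
    constructor
    · rintro ⟨⟨c, hc⟩, hx⟩
      have := (mem_filter.1 (ht1 c hc)).2
      rw [← hx, this]
      exact hc
    · intro hx
      exact ⟨⟨b, hx⟩, (mem_filter.1 (ht1 b hx)).2⟩

lemma card_filter_mem_eq_load {α : Type} [DecidableEq α] {k : ℕ} (P : Finset α)
    (f : α → Finset (Fin k)) (i : Fin k) :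
    (P.filter (fun x => i ∈ f x)).card = load (fun τ => (P.filter (fun x => f x = τ)).card) i := by
  unfold load
  rw [card_eq_sum_card_fiberwise (f := f) (t := univ.filter (fun τ : Finset (Fin k) => i ∈ τ))]
  · apply sum_congr rfl
    intro τ hτ
    congr 1
    ext x
    simp only [mem_filter, mem_univ, true_and] at hτ ⊢
    constructor
    · rintro ⟨⟨h1, _⟩, h3⟩
      exact ⟨h1, h3⟩
    · rintro ⟨h1, h3⟩
      exact ⟨⟨h1, h3 ▸ hτ⟩, h3⟩
  · intro x hx
    simp only [coe_filter, Set.mem_setOf_eq, mem_univ, true_and] at hx ⊢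
    exact hx.2

lemma equal_abs (k : ℕ) : ∃ C : ℕ, ∀ (α : Type) [DecidableEq α] (P : Finset α)
    (f : α → Finset (Fin k)) (e : Fin k → ℕ) (s : ℕ), ∑ i, e i ≤ s →
    (∀ i j, (P.filter (fun x => i ∈ f x)).card + e i = (P.filter (fun x => j ∈ f x)).card + e j) →
      ∃ Y, Y ⊆ P ∧ Y.card ≤ C * s ∧ ∀ i j, ((P \ Y).filter (fun x => i ∈ f x)).card =
        ((P \ Y).filter (fun x => j ∈ f x)).card := by
  obtain ⟨C, hC⟩ := equal_mult k
  refine ⟨C, fun α _ P f e s he h => ?_⟩
  obtain ⟨m', r, h1, h2, h3⟩ := hC s (fun τ => (P.filter (fun x => f x = τ)).card) e he (by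
    intro i j
    have := h i j
    rw [card_filter_mem_eq_load, card_filter_mem_eq_load] at this
    exact this)
  have hpt : ∀ τ, (P.filter (fun x => f x = τ)).card = m' τ + r τ := fun τ => congrFun h1 τ
  obtain ⟨Y, hY, hYc⟩ := realize P f m' (fun b => by rw [hpt]; omega)
  refine ⟨Y, hY, ?_, fun i j => ?_⟩
  · rw [card_eq_sum_card_fiberwise (f := f) (t := univ) (by intro x _; simp)]
    simp only [hYc]
    exact h2
  · have hr : (fun τ => ((P \ Y).filter (fun x => f x = τ)).card) = r := by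
      funext τ
      have e1 : (P \ Y).filter (fun x => f x = τ) =
          P.filter (fun x => f x = τ) \ Y.filter (fun x => f x = τ) := by
        ext x
        simp only [mem_filter, mem_sdiff]
        tauto
      rw [e1, card_sdiff_of_subset (filter_subset_filter _ hY), hpt, hYc]
      omega
    rw [card_filter_mem_eq_load, card_filter_mem_eq_load, hr]
    exact h3 i j

variable {V : Type} [DecidableEq V] {G : SimpleGraph V} [DecidableRel G.Adj]

lemma dg_split {A W : Finset V} (hW : W ⊆ A) (v : V) :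
    dg G A v = dg G W v + dg G (A \ W) v := by
  unfold dg
  rw [← card_union_of_disjoint]
  · congr 1
    rw [← filter_union, union_sdiff_of_subset hW]
  · exact disjoint_filter_filter disjoint_sdiff

lemma dg_clq {W : Finset V} (h : Clq G W) {w : V} (hw : w ∈ W) : dg G W w + 1 = W.card := by
  have : W.filter (fun u => G.Adj w u) = W.erase w := by
    ext x
    simp only [mem_filter, mem_erase]
    constructor
    · rintro ⟨h1, h2⟩
      exact ⟨h2.ne', h1⟩
    · rintro ⟨h1, h2⟩
      exact ⟨h2, h w hw x h2 (Ne.symm h1)⟩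
  unfold dg
  rw [this, card_erase_add_one hw]

lemma dg_ind {W : Finset V} (h : Ind G W) {w : V} (hw : w ∈ W) : dg G W w = 0 := by
  unfold dg
  rw [card_eq_zero, filter_eq_empty_iff]
  intro x hx
  exact h w hw x hx

lemma dg_hom {W : Finset V} (h : Hom G W) {u w : V} (hu : u ∈ W) (hw : w ∈ W) :
    dg G W u = dg G W w := by
  rcases h with h | h
  · have := dg_clq h hu
    have := dg_clq h hw
    omega
  · rw [dg_ind h hu, dg_ind h hw]

/-- exact equalisation of a homogeneous `k`-set at a cost linear in the spread of degrees -/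
lemma equalize (k : ℕ) : ∃ C : ℕ, ∀ (V : Type) [DecidableEq V] (G : SimpleGraph V)
    [DecidableRel G.Adj] (A W : Finset V) (s : ℕ), W ⊆ A → W.card = k → Hom G W →
    (∀ u ∈ W, ∀ w ∈ W, dg G A u ≤ dg G A w + s) →
      ∃ Y, Y ⊆ A \ W ∧ Y.card ≤ C * s ∧
        ∀ u ∈ W, ∀ w ∈ W, dg G (A \ Y) u = dg G (A \ Y) w := by
  obtain ⟨C, hC⟩ := equal_abs k
  refine ⟨C * k, fun V _ G _ A W s hWA hk hh hs => ?_⟩
  let φ : Fin k ≃ W := (equivFinOfCardEq hk).symm
  let f : V → Finset (Fin k) := fun x => univ.filter (fun i => G.Adj (φ i) x)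
  have hf : ∀ (B : Finset V) (i : Fin k), (B.filter (fun x => i ∈ f x)).card = dg G B (φ i) := by
    intro B i
    unfold dg
    congr 1
    ext x
    simp [f]
  let M := W.sup (dg G A)
  have hM : ∀ w ∈ W, dg G A w ≤ M := fun w hw => le_sup (f := dg G A) hw
  have hM2 : ∀ w ∈ W, M ≤ dg G A w + s := fun w hw =>
    Finset.sup_le (fun u hu => hs u hu w hw)
  obtain ⟨Y, hY, hYc, hYe⟩ := hC V (A \ W) f (fun i => M - dg G A (φ i)) (k * s) (by
      have : ∑ i : Fin k, (M - dg G A (φ i)) ≤ ∑ _i : Fin k, s := by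
        apply sum_le_sum
        intro i _
        have := hM2 _ (φ i).2
        omega
      simpa using this) (by
      intro i j
      rw [hf, hf]
      have a1 := hM _ (φ i).2
      have a2 := hM _ (φ j).2
      have a3 := dg_split (G := G) hWA (φ i)
      have a4 := dg_split (G := G) hWA (φ j)
      have a5 := dg_hom hh (φ i).2 (φ j).2
      omega)
  refine ⟨Y, hY, by rw [mul_assoc]; exact hYc, fun u hu w hw => ?_⟩
  have hWAY : W ⊆ A \ Y := fun x hx =>
    mem_sdiff.2 ⟨hWA hx, fun hy => (mem_sdiff.1 (hY hy)).2 hx⟩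
  have e1 : (A \ Y) \ W = (A \ W) \ Y := sdiff_right_comm _ _ _
  have := hYe (φ.symm ⟨u, hu⟩) (φ.symm ⟨w, hw⟩)
  rw [hf, hf] at this
  simp only [Equiv.apply_symm_apply] at this
  rw [dg_split hWAY u, dg_split hWAY w, e1, this, dg_hom hh hu hw]

end Pool.Agent.H84Z.CY
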