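import Pool.Agent.H84Z.CY.Basic

set_option autoImplicit false
set_option linter.unusedSectionVars false

namespace Pool.Agent.H84Z.CY

open Finset

variable {V : Type} [DecidableEq V] {G : SimpleGraph V} [DecidableRel G.Adj]

lemma mem_nb {A W : Finset V} {x : V} : x ∈ nb G A W ↔ x ∈ A ∧ ∃ w ∈ W, G.Adj w x := by
  simp [nb]

lemma mem_cm {A W : Finset V} {x : V} : x ∈ cm G A W ↔ x ∈ A ∧ ∀ w ∈ W, G.Adj w x := by
  simp [cm]

/-- The potential argument when the non-neighbourhoods of the group `S` inside the union of its
neighbourhoods are well spread. -/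
lemma ic (k : ℕ) (S : Finset V) (hS : k ≤ S.card) (a : ℕ) :
    ∀ (p : ℕ) (A : Finset V) (D : ℕ), S ⊆ A → (∀ v ∈ A, dg G A v ≤ D) →
      S.card * D ≤ ∑ s ∈ S, dg G A s + p → (nb G A S).card ≤ D + a →
      k * (a + S.card) + S.card + p < (nb G A S \ cm G A S).card → Win G k A (k * p) := by
  intro p
  induction p with
  | zero =>
    intro A D hSA hD hsum _ _
    refine (win_of_top hD (hS.trans (card_le_card ?_))).mono (by omega)
    intro s hs
    refine mem_filter.2 ⟨hSA hs, ?_⟩
    by_contra hne
    have : ∑ s ∈ S, dg G A s < ∑ _s ∈ S, D :=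
      sum_lt_sum (fun i hi => hD i (hSA hi)) ⟨s, hs, lt_of_le_of_ne (hD s (hSA hs)) hne⟩
    simp only [sum_const, smul_eq_mul] at this
    omega
  | succ p ih =>
    intro A D hSA hD hsum hU hUQ
    by_cases hT : k ≤ (A.filter (fun v => dg G A v = D)).card
    · exact (win_of_top hD hT).mono (by omega)
    push Not at hT
    set T := A.filter (fun v => dg G A v = D) with hTdef
    set U := nb G A S with hUdef
    set Q := cm G A S with hQdef
    obtain ⟨D', rfl⟩ : ∃ D', D = D' + 1 := by
      rcases D with _ | D'
      · exfalso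
        have : S ⊆ T := fun s hs => mem_filter.2 ⟨hSA hs, by have := hD s (hSA hs); omega⟩
        have := card_le_card this
        omega
      · exact ⟨D', rfl⟩
    let R : V → V → Prop := fun v y => y ∈ A ∧ G.Adj v y ∧ y ∉ U ∧ y ∉ S
    classical
    obtain ⟨Y, hY1, hY2, hY3⟩ := exists_hit (T.filter (fun v => ∃ y, R v y)) R
      (fun v hv => (mem_filter.1 hv).2)
    set T2 := T.filter (fun v => ¬ ∃ y, R v y) with hT2
    have hT2c : ∀ w ∈ T2, (U.filter (fun x => ¬ G.Adj w x)).card ≤ a + S.card := by
      intro w hw
      rw [hT2, mem_filter, hTdef, mem_filter] at hw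
      have h1 := card_filter_add_card_filter_not (s := U) (fun x => G.Adj w x)
      have h2 : dg G A w ≤ (U.filter (fun x => G.Adj w x) ∪ S).card := by
        apply dg_le_of_subset
        intro x hx hadj
        by_contra hcon
        rw [mem_union, mem_filter] at hcon
        push Not at hcon
        exact hw.2 ⟨x, hx, hadj, fun hu => hcon.1 hu hadj, hcon.2⟩
      have h3 := card_union_le (U.filter (fun x => G.Adj w x)) S
      omega
    have hBad : (S ∪ T2.biUnion (fun w => U.filter (fun x => ¬ G.Adj w x))).card <
        (U \ Q).card := by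
      have h1 := card_union_le S (T2.biUnion (fun w => U.filter (fun x => ¬ G.Adj w x)))
      have h2 := card_biUnion_le_card_mul T2 (fun w => U.filter (fun x => ¬ G.Adj w x)) _ hT2c
      have h3 : T2.card ≤ k := (card_le_card (filter_subset _ _)).trans hT.le
      have h4 := Nat.mul_le_mul_right (a + S.card) h3
      omega
    obtain ⟨x, hx, hxB⟩ := exists_mem_notMem_of_card_lt_card hBad
    rw [mem_union, mem_biUnion] at hxB
    push Not at hxB
    rw [mem_sdiff] at hx
    have hxA : x ∈ A := (mem_nb.1 hx.1).1
    have hYp : ∀ y ∈ Y, y ∈ A ∧ y ∉ U ∧ y ∉ S := by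
      intro y hy
      obtain ⟨v, _, hp⟩ := hY2 y hy
      exact ⟨hp.1, hp.2.2.1, hp.2.2.2⟩
    have hYc : (insert x Y).card ≤ k := by
      have := card_insert_le x Y
      have := card_le_card (filter_subset (fun v => ∃ y, R v y) T)
      omega
    have key : Win G k (A \ insert x Y) (k * p) := by
      apply ih (A \ insert x Y) D'
      · intro s hs
        refine mem_sdiff.2 ⟨hSA hs, fun h => ?_⟩
        rcases mem_insert.1 h with rfl | h
        · exact hxB.1 hs
        · exact (hYp s h).2.2 hs
      · intro v hv
        rw [mem_sdiff] at hv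
        by_cases hv' : dg G A v = D' + 1
        · have hvT : v ∈ T := mem_filter.2 ⟨hv.1, hv'⟩
          by_cases hR : ∃ y, R v y
          · obtain ⟨y, hy, hp⟩ := hY3 v (mem_filter.2 ⟨hvT, hR⟩)
            have := dg_sdiff_lt (Y := insert x Y) hp.1 (mem_insert_of_mem hy) hp.2.1
            omega
          · have h1 := hxB.2 v (mem_filter.2 ⟨hvT, hR⟩)
            have hadj : G.Adj v x := by
              by_contra hn
              exact h1 (mem_filter.2 ⟨hx.1, hn⟩)
            have := dg_sdiff_lt (Y := insert x Y) hxA (mem_insert_self _ _) hadj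
            omega
        · have := hD v hv.1
          have := dg_sdiff_le (G := G) A (insert x Y) v
          omega
      · have e : A \ insert x Y = (A \ Y) \ {x} := by
          ext z
          simp only [mem_sdiff, mem_insert, mem_singleton]
          tauto
        have h1 : ∀ s ∈ S, dg G (A \ Y) s = dg G A s := by
          intro s hs
          apply dg_sdiff_eq
          intro y hy hadj
          exact (hYp y hy).2.1 (mem_nb.2 ⟨(hYp y hy).1, s, hs, hadj⟩)
        have hs0 : ∃ s ∈ S, ¬ G.Adj s x := by
          by_contra hcon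
          push Not at hcon
          exact hx.2 (mem_cm.2 ⟨hxA, hcon⟩)
        obtain ⟨s0, hs0, hn⟩ := hs0
        have : ∑ s ∈ S, dg G A s < ∑ s ∈ S, (dg G (A \ insert x Y) s + 1) := by
          apply sum_lt_sum
          · intro s hs
            have := le_dg_sdiff (G := G) (A \ Y) {x} s
            rw [e, ← h1 s hs]
            simpa using this
          · refine ⟨s0, hs0, ?_⟩
            rw [e, dg_sdiff_eq (by simpa using hn), h1 s0 hs0]
            omega
        rw [sum_add_distrib] at this
        simp only [sum_const, smul_eq_mul, mul_one] at this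
        have e2 : S.card * (D' + 1) = S.card * D' + S.card := by ring
        omega
      · have : nb G (A \ insert x Y) S ⊆ U.erase x := by
          intro z hz
          rw [mem_nb, mem_sdiff, mem_insert] at hz
          exact mem_erase.2 ⟨fun h => hz.1.2 (Or.inl h), mem_nb.2 ⟨hz.1.1, hz.2⟩⟩
        have h1 := card_le_card this
        have h2 := card_erase_add_one hx.1
        omega
      · have : (U \ Q).erase x ⊆ nb G (A \ insert x Y) S \ cm G (A \ insert x Y) S := by
          intro z hz
          rw [mem_erase, mem_sdiff] at hz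
          have hz1 := mem_nb.1 hz.2.1
          have hzA : z ∈ A \ insert x Y := by
            refine mem_sdiff.2 ⟨hz1.1, fun h => ?_⟩
            rcases mem_insert.1 h with h | h
            · exact hz.1 h
            · exact (hYp z h).2.1 hz.2.1
          exact mem_sdiff.2 ⟨mem_nb.2 ⟨hzA, hz1.2⟩,
            fun h => hz.2.2 (mem_cm.2 ⟨hz1.1, (mem_cm.1 h).2⟩)⟩
        have h1 := card_le_card this
        have h2 := card_erase_add_one (mem_sdiff.2 hx)
        omega
    have := key.del hYc
    exact this.mono (by ring_nf; omega)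

/-- double counting: small `k`-wise intersections force a large union -/
lemma spread (k : ℕ) (A S : Finset V) (D e : ℕ) (hD : ∀ s ∈ S, dg G A s ≤ D)
    (he : ∀ W, W ⊆ S → W.card = k → (nb G A S).card ≤ (nb G A W).card + e) :
    S.card * (nb G A S).card ≤
      S.card * D + k * (nb G A S \ cm G A S).card + S.card * (2 ^ S.card * e) := by
  set U := nb G A S with hU
  set Q := cm G A S with hQ
  have h1 : ∀ s ∈ S, U.card ≤ D + (U.filter (fun x => ¬ G.Adj s x)).card := by
    intro s hs
    have h := card_filter_add_card_filter_not (s := U) (fun x => G.Adj s x)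
    have h' : (U.filter (fun x => G.Adj s x)).card ≤ dg G A s :=
      dg_mono (G := G) (A := U) (B := A) (filter_subset _ _) s
    have := hD s hs
    omega
  have h2 : S.card * U.card ≤ S.card * D + ∑ s ∈ S, (U.filter (fun x => ¬ G.Adj s x)).card := by
    have := sum_le_sum h1
    rw [sum_add_distrib] at this
    simpa using this
  have h3 : ∑ s ∈ S, (U.filter (fun x => ¬ G.Adj s x)).card =
      ∑ x ∈ U, (S.filter (fun s => ¬ G.Adj s x)).card := by
    simp only [card_filter]
    exact sum_comm
  let H := U.filter (fun x => k ≤ (S.filter (fun s => ¬ G.Adj s x)).card)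
  have hH : H.card ≤ 2 ^ S.card * e := by
    have hsub : H ⊆ (powersetCard k S).biUnion (fun W => U \ nb G A W) := by
      intro x hx
      rw [mem_filter] at hx
      obtain ⟨W, hW, hWc⟩ := exists_subset_card_eq hx.2
      refine mem_biUnion.2 ⟨W, mem_powersetCard.2 ⟨hW.trans (filter_subset _ _), hWc⟩, ?_⟩
      refine mem_sdiff.2 ⟨hx.1, fun h => ?_⟩
      obtain ⟨_, w, hw, hadj⟩ := mem_nb.1 h
      exact (mem_filter.1 (hW hw)).2 hadj
    have hb := card_biUnion_le_card_mul (powersetCard k S) (fun W => U \ nb G A W) e (by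
      intro W hW
      rw [mem_powersetCard] at hW
      have hs : nb G A W ⊆ U := by
        intro z hz
        obtain ⟨h1, w, hw, hadj⟩ := mem_nb.1 hz
        exact mem_nb.2 ⟨h1, w, hW.1 hw, hadj⟩
      rw [card_sdiff_of_subset hs]
      have := he W hW.1 hW.2
      omega)
    have hc : (powersetCard k S).card ≤ 2 ^ S.card := by
      rw [← card_powerset]
      exact card_le_card (fun W hW => mem_powerset.2 (mem_powersetCard.1 hW).1)
    exact (card_le_card hsub).trans (hb.trans (Nat.mul_le_mul_right _ hc))
  have h4 : ∑ x ∈ U, (S.filter (fun s => ¬ G.Adj s x)).card ≤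
      ∑ x ∈ U, ((if x ∈ U \ Q then k else 0) + (if x ∈ H then S.card else 0)) := by
    apply sum_le_sum
    intro x hx
    by_cases hxH : x ∈ H
    · rw [if_pos hxH]
      have := card_filter_le S (fun s => ¬ G.Adj s x)
      omega
    · rw [if_neg hxH]
      by_cases hxQ : x ∈ Q
      · have : (S.filter (fun s => ¬ G.Adj s x)).card = 0 := by
          rw [card_eq_zero, filter_eq_empty_iff]
          intro s hs hn
          exact hn ((mem_cm.1 hxQ).2 s hs)
        omega
      · rw [if_pos (mem_sdiff.2 ⟨hx, hxQ⟩)]
        have : ¬ k ≤ (S.filter (fun s => ¬ G.Adj s x)).card := fun h =>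
          hxH (mem_filter.2 ⟨hx, h⟩)
        omega
  rw [sum_add_distrib, sum_ite_mem, sum_ite_mem] at h4
  simp only [sum_const, smul_eq_mul] at h4
  have h5 : (U ∩ (U \ Q)).card ≤ (U \ Q).card := card_le_card inter_subset_right
  have h6 : (U ∩ H).card ≤ 2 ^ S.card * e := (card_le_card inter_subset_right).trans hH
  have h7 := Nat.mul_le_mul_right k h5
  have h8 := Nat.mul_le_mul_right S.card h6
  rw [mul_comm k, mul_comm S.card (2 ^ S.card * e)]
  omega

end Pool.Agent.H84Z.CY
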