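import Pool.Agent.H84Z.CY.Twins
import Pool.Agent.H84Z.CY.Equal

set_option autoImplicit false
set_option linter.unusedSectionVars false

namespace Pool.Agent.H84Z.CY

open Finset

variable {V : Type} [DecidableEq V] {G : SimpleGraph V} [DecidableRel G.Adj]

lemma nb_mono (A : Finset V) {W S : Finset V} (h : W ⊆ S) : nb G A W ⊆ nb G A S := by
  intro z hz
  obtain ⟨h1, w, hw, hadj⟩ := mem_nb.1 hz
  exact mem_nb.2 ⟨h1, w, h hw, hadj⟩

/-- few near-top vertices have their neighbourhood inside that of `W` -/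
lemma few_inside (k E : ℕ) (hpos : 0 < k)
    (hE : ∀ (A W : Finset V) (s : ℕ), W ⊆ A → W.card = k → Hom G W →
      (∀ u ∈ W, ∀ w ∈ W, dg G A u ≤ dg G A w + s) →
      ∃ Y, Y ⊆ A \ W ∧ Y.card ≤ E * s ∧ ∀ u ∈ W, ∀ w ∈ W, dg G (A \ Y) u = dg G (A \ Y) w)
    (A W : Finset V) (D ρ σ K ψ θ : ℕ) (hWA : W ⊆ A) (hk : W.card = k) (hh : Hom G W)
    (hD : ∀ v ∈ A, dg G A v ≤ D) (hρ : ∀ w ∈ W, D ≤ dg G A w + ρ)
    (hσ : ∀ u ∈ W, ∀ w ∈ W, dg G A u ≤ dg G A w + σ)
    (hψ : ρ + K + E * (σ + K) ≤ ψ) (hθ : ψ + k * ψ + k ≤ θ)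
    (hI : ((A \ W).filter (fun v => D ≤ dg G A v + ψ ∧ dg G (A \ nb G A W) v ≤ θ)).card ≤ K) :
    Win G k A (ψ + k * ψ) := by
  obtain ⟨w0, hw0⟩ : W.Nonempty := card_pos.1 (hk ▸ hpos)
  set I := (A \ W).filter (fun v => D ≤ dg G A v + ψ ∧ dg G (A \ nb G A W) v ≤ θ) with hId
  have hW1 : W ⊆ A \ I := fun w hw =>
    mem_sdiff.2 ⟨hWA hw, fun h => (mem_sdiff.1 (mem_filter.1 h).1).2 hw⟩
  obtain ⟨Y, hY1, hY2, hY3⟩ := hE (A \ I) W (σ + K) hW1 hk hh (by
    intro u hu w hw
    have a1 := dg_sdiff_le (G := G) A I u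
    have a2 := le_dg_sdiff (G := G) A I w
    have a3 := hσ u hu w hw
    omega)
  have hlev : D ≤ dg G ((A \ I) \ Y) w0 + ψ := by
    have a1 := hρ w0 hw0
    have a2 := le_dg_sdiff (G := G) A I w0
    have a3 := le_dg_sdiff (G := G) (A \ I) Y w0
    omega
  have key := down (G := G) k W hk.ge (dg G ((A \ I) \ Y) w0) ψ ((A \ I) \ Y)
    (fun w hw => mem_sdiff.2 ⟨hW1 hw, fun h => (mem_sdiff.1 (hY1 h)).2 hw⟩)
    (fun w hw => hY3 w hw w0 hw0)
    (by
      intro v hv
      have a1 := dg_mono (G := G) (sdiff_subset.trans sdiff_subset : (A \ I) \ Y ⊆ A) v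
      have a2 := hD v (mem_sdiff.1 (mem_sdiff.1 hv).1).1
      omega)
    (by
      intro X hX _ v hv hvW hlt
      by_contra hcon
      have hv1 := mem_sdiff.1 (mem_sdiff.1 (mem_sdiff.1 hv).1).1
      apply hv1.2
      refine mem_filter.2 ⟨mem_sdiff.2 ⟨hv1.1, hvW⟩, ?_, ?_⟩
      · have a1 := dg_mono (G := G)
          (sdiff_subset.trans (sdiff_subset.trans sdiff_subset) : ((A \ I) \ Y) \ X ⊆ A) v
        omega
      · have a1 : dg G (A \ nb G A W) v ≤ (((I ∪ Y) ∪ X) ∪ W).card := by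
          apply dg_le_of_subset
          intro x hx hvx
          rw [mem_sdiff] at hx
          by_contra hn
          simp only [mem_union, not_or] at hn
          apply hcon
          refine ⟨x, mem_sdiff.2 ⟨mem_sdiff.2 ⟨mem_sdiff.2 ⟨hx.1, hn.1.1.1⟩, hn.1.1.2⟩, hn.1.2⟩,
            hn.2, fun w hw h => hx.2 (mem_nb.2 ⟨hx.1, w, hw, h⟩), Or.inr hvx⟩
        have a2 := card_union_le ((I ∪ Y) ∪ X) W
        have a3 := card_union_le (I ∪ Y) X
        have a4 := card_union_le I Y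
        omega)
  exact ((key.del hY2).del hI).mono (by omega)

lemma arith1 (H a a' : ℕ) (hH : 0 < H) (h : H * a < (H + 1) * a') : a ≤ a' + a / H + 1 := by
  have h1 : a < H * (a / H + 1) := Nat.lt_mul_div_succ a hH
  by_contra hc
  push Not at hc
  generalize a / H = d at h1 hc
  have h2 : H * (a' + (d + 1)) ≤ H * a := Nat.mul_le_mul_left _ (by omega)
  have h3 : H * (a' + (d + 1)) = H * a' + H * (d + 1) := by ring
  have h4 : (H + 1) * a' = H * a' + a' := by ring
  omega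

lemma arith2 (k B a a2 d P Z : ℕ) (hk : 0 < k) (hP : 0 < P) (hd : 8 * B * d ≤ a)
    (ha : a ≤ 2 * a2)
    (hbig : 2 * (4 * B * (1 + 2 * k ^ 2 * (2 * k + 1)) + 6 * (2 * k ^ 2)) * P < a)
    (hZ : 2 * k ^ 2 * a2 ≤ k * Z + 2 * k ^ 2 * (B * (d + 1 + 2 * k ^ 2 * ((2 * k + 1) * P)))) :
    k * (a2 + 2 * k ^ 2) + 2 * k ^ 2 + 2 * k ^ 2 * P < Z := by
  have h1 : 2 * k * a2 ≤ Z + 2 * k * (B * (d + 1 + 2 * k ^ 2 * ((2 * k + 1) * P))) := by
    apply Nat.le_of_mul_le_mul_left _ hk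
    nlinarith
  set c := 2 * k ^ 2 with hc
  have h2 : 4 * (B * d) ≤ a2 := by nlinarith
  have h3 : (4 * B * (1 + c * (2 * k + 1)) + 6 * c) * P < a2 := by nlinarith
  have h4 : 4 * (B * (1 + c * ((2 * k + 1) * P))) + 4 * c + 2 * (c * P) < a2 := by
    have e1 : B ≤ B * P := Nat.le_mul_of_pos_right _ hP
    have e2 : c ≤ c * P := Nat.le_mul_of_pos_right _ hP
    have e3 : (4 * B * (1 + c * (2 * k + 1)) + 6 * c) * P =
        4 * (B * P) + 4 * (B * (c * ((2 * k + 1) * P))) + 6 * (c * P) := by ring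
    have e4 : B * (1 + c * ((2 * k + 1) * P)) = B + B * (c * ((2 * k + 1) * P)) := by ring
    omega
  have h5 := Nat.mul_le_mul_left k h2
  have h6 := Nat.mul_lt_mul_of_pos_left h4 hk
  have e5 : c ≤ k * c := Nat.le_mul_of_pos_left _ hk
  have e6 : c * P ≤ k * (c * P) := Nat.le_mul_of_pos_left _ hk
  nlinarith

lemma iterate (k : ℕ) (hpos : 0 < k) : ∃ C E H R : ℕ, 0 < H ∧
    ∀ (V : Type) [DecidableEq V] (G : SimpleGraph V) [DecidableRel G.Adj] (A : Finset V)
      (D P L s : ℕ), 0 < P → P < L * (s + 1) → (∀ v ∈ A, dg G A v ≤ D) →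
      ∀ (m : ℕ) (W : Finset V) (ρ σ a : ℕ), W ⊆ A → W.card = k → Hom G W →
        (∀ w ∈ W, D ≤ dg G A w + ρ) → (∀ u ∈ W, ∀ w ∈ W, dg G A u ≤ dg G A w + σ) →
        (nb G A W).card ≤ D + a → ρ + E * σ + m * (L * R * (1 + E) + E * s) ≤ P →
        a * H ^ m ≤ P * (H + 1) ^ m → Win G k A (C * P) := by
  obtain ⟨E, hE⟩ := equalize k
  obtain ⟨T, hT⟩ := twin k
  set c := 2 * k ^ 2 with hc
  set Cs := 2 * (4 * 2 ^ c * (1 + 2 * k ^ 2 * (2 * k + 1)) + 6 * (2 * k ^ 2)) with hCs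
  have hCs1 : 0 < Cs := by positivity
  have hkc : k ≤ c := by nlinarith
  refine ⟨T * Cs + (k + 1) + k * c, E, 8 * 2 ^ c, 2 ^ (c + c), by positivity, ?_⟩
  intro V _ G _ A D P L s hP hL hD
  have hPC : P ≤ Cs * P := Nat.le_mul_of_pos_left _ hCs1
  have eC : (T * Cs + (k + 1) + k * c) * P = T * (Cs * P) + (P + k * P) + k * (c * P) := by ring
  have small : ∀ (W : Finset V) (ρ a : ℕ), W ⊆ A → W.card = k → Hom G W →
      (∀ w ∈ W, D ≤ dg G A w + ρ) → (nb G A W).card ≤ D + a → ρ ≤ P → a ≤ Cs * P →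
      Win G k A ((T * Cs + (k + 1) + k * c) * P) := by
    intro W ρ a hWA hk hh hρ hU h1 h2
    refine (hT V G A W D (Cs * P) (by positivity) hWA hk hh hD
      (fun w hw => by have := hρ w hw; omega) (by omega)).mono (by omega)
  intro m
  induction m with
  | zero =>
    intro W ρ σ a hWA hk hh hρ _ hU h1 h2
    exact small W ρ a hWA hk hh hρ hU (by omega) (by simp at h2; omega)
  | succ m ih =>
    intro W ρ σ a hWA hk hh hρ hσ hU h1 h2
    by_cases ha : a ≤ Cs * P
    · exact small W ρ a hWA hk hh hρ hU (by omega) ha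
    push Not at ha
    set H := 8 * 2 ^ c with hH
    have hH0 : 0 < H := by positivity
    set K := L * 2 ^ (c + c) with hK
    set ψ := ρ + K + E * (σ + K) with hψ
    have hψ1 : ψ + E * s + m * (K * (1 + E) + E * s) ≤ P := by
      have : ψ + E * s + m * (K * (1 + E) + E * s) =
          ρ + E * σ + (m + 1) * (K * (1 + E) + E * s) := by rw [hψ]; ring
      omega
    have hψP : ψ ≤ P := by omega
    have hkψ := Nat.mul_le_mul_left k hψP
    have hkP : k ≤ k * P := Nat.le_mul_of_pos_right _ hP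
    by_cases hI : ((A \ W).filter (fun v => D ≤ dg G A v + ψ ∧
        dg G (A \ nb G A W) v ≤ (2 * k + 1) * P)).card ≤ K
    · refine (few_inside k E hpos (hE V G) A W D ρ σ K ψ ((2 * k + 1) * P) hWA hk hh hD hρ hσ
        le_rfl ?_ hI).mono (by omega)
      have : (2 * k + 1) * P = 2 * (k * P) + P := by ring
      omega
    push Not at hI
    set I := (A \ W).filter (fun v => D ≤ dg G A v + ψ ∧
        dg G (A \ nb G A W) v ≤ (2 * k + 1) * P) with hId
    obtain ⟨y, _, hy⟩ := exists_lt_card_fiber_of_mul_lt_card_of_maps_to (s := I) (t := range L)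
      (f := fun v => (D - dg G A v) / (s + 1)) (n := 2 ^ (c + c)) (by
        intro v hv
        have := (mem_filter.1 hv).2.1
        rw [mem_range, Nat.div_lt_iff_lt_mul (by omega)]
        omega) (by rw [card_range]; exact hI)
    obtain ⟨S, hS1, hS2, hS3⟩ := ramsey_hom (G := G) c _ hy.le
    have hSI : ∀ v ∈ S, v ∈ I := fun v hv => (mem_filter.1 (hS1 hv)).1
    have hSA : S ⊆ A := fun v hv => (mem_sdiff.1 (mem_filter.1 (hSI v hv)).1).1
    have hSρ : ∀ v ∈ S, D ≤ dg G A v + ψ := fun v hv => (mem_filter.1 (hSI v hv)).2.1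
    have hSσ : ∀ u ∈ S, ∀ w ∈ S, dg G A u ≤ dg G A w + s := by
      intro u hu w hw
      have e1 : (D - dg G A u) / (s + 1) = y := (mem_filter.1 (hS1 hu)).2
      have e2 : (D - dg G A w) / (s + 1) = y := (mem_filter.1 (hS1 hw)).2
      have a1 := Nat.div_add_mod (D - dg G A u) (s + 1)
      have a2 := Nat.div_add_mod (D - dg G A w) (s + 1)
      have a3 := Nat.mod_lt (D - dg G A w) (show 0 < s + 1 by omega)
      have a4 := hD u (hSA hu)
      have a5 := hD w (hSA hw)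
      rw [e1] at a1
      rw [e2] at a2
      omega
    have hUS : (nb G A S).card ≤ D + a + c * ((2 * k + 1) * P) := by
      have hsub : nb G A S ⊆
          nb G A W ∪ S.biUnion (fun w => (A \ nb G A W).filter (fun x => G.Adj w x)) := by
        intro x hx
        obtain ⟨hxA, w, hw, hadj⟩ := mem_nb.1 hx
        by_cases hxQ : x ∈ nb G A W
        · exact mem_union_left _ hxQ
        · exact mem_union_right _
            (mem_biUnion.2 ⟨w, hw, mem_filter.2 ⟨mem_sdiff.2 ⟨hxA, hxQ⟩, hadj⟩⟩)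
      have a1 := card_le_card hsub
      have a2 := card_union_le (nb G A W)
        (S.biUnion (fun w => (A \ nb G A W).filter (fun x => G.Adj w x)))
      have a3 := card_biUnion_le_card_mul S (fun w => (A \ nb G A W).filter (fun x => G.Adj w x))
        ((2 * k + 1) * P) (fun w hw => (mem_filter.1 (hSI w hw)).2.2)
      rw [hS2] at a3
      omega
    by_cases hsm : ∃ W', W' ⊆ S ∧ W'.card = k ∧ (H + 1) * ((nb G A W').card - D) ≤ H * a
    · obtain ⟨W', b1, b2, b3⟩ := hsm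
      apply ih W' ψ s ((nb G A W').card - D) (b1.trans hSA) b2 (hS3.mono b1)
        (fun w hw => hSρ w (b1 hw)) (fun u hu w hw => hSσ u (b1 hu) w (b1 hw)) (by omega) hψ1
      apply Nat.le_of_mul_le_mul_left _ (show 0 < H + 1 by omega)
      calc (H + 1) * (((nb G A W').card - D) * H ^ m)
          = ((H + 1) * ((nb G A W').card - D)) * H ^ m := by ring
        _ ≤ (H * a) * H ^ m := Nat.mul_le_mul_right _ b3
        _ = a * H ^ (m + 1) := by ring
        _ ≤ P * (H + 1) ^ (m + 1) := h2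
        _ = (H + 1) * (P * (H + 1) ^ m) := by ring
    push Not at hsm
    have ha0 : 0 < a := by omega
    have hpos' : ∀ W', W' ⊆ S → W'.card = k → D < (nb G A W').card := by
      intro W' b1 b2
      have := hsm W' b1 b2
      by_contra hc
      have e : (nb G A W').card - D = 0 := by omega
      rw [e] at this
      omega
    have hsp := spread (G := G) k A S D (a / H + 1 + c * ((2 * k + 1) * P))
      (fun v hv => hD v (hSA hv)) (by
        intro W' b1 b2
        have a1 := arith1 H a _ hH0 (hsm W' b1 b2)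
        have a2 := hpos' W' b1 b2
        omega)
    obtain ⟨W0, b1, b2⟩ := exists_subset_card_eq (s := S) (n := k) (by omega)
    have c1 := card_le_card (nb_mono (G := G) A b1)
    have c2 := hpos' W0 b1 b2
    have c3 := hsm W0 b1 b2
    obtain ⟨a2, ha2⟩ : ∃ a2, (nb G A S).card = D + a2 := ⟨(nb G A S).card - D, by omega⟩
    have c4 : a ≤ 2 * a2 := by
      have : (nb G A W0).card - D ≤ a2 := by omega
      have := Nat.mul_le_mul_left (H + 1) this
      nlinarith
    rw [hS2, ha2] at hsp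
    have c5 := arith2 k (2 ^ c) a a2 (a / H) P (nb G A S \ cm G A S).card hpos hP
      (Nat.mul_div_le a H) c4 ha (by rw [← hc]; rw [mul_add] at hsp; omega)
    refine (ic (G := G) k S (by omega) a2 (c * P) A D hSA hD ?_ ha2.le
      (by rw [hS2]; exact c5)).mono (by omega)
    have : ∑ _v ∈ S, D ≤ ∑ v ∈ S, (dg G A v + P) :=
      sum_le_sum (fun v hv => by have := hSρ v hv; omega)
    rw [sum_add_distrib] at this
    simp only [sum_const, smul_eq_mul] at this
    rw [hS2] at this ⊢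
    exact this

lemma bern (H z : ℕ) (hH : 0 < H) : z ^ 2 * H ^ (2 * H * z) ≤ (H + 1) ^ (2 * H * z) := by
  have h1 : z * H ^ (H * z) ≤ (H + 1) ^ (H * z) := by
    have hr : (0 : ℝ) < H := by exact_mod_cast hH
    have := one_add_mul_le_pow (a := (1 / H : ℝ)) (by have : (0 : ℝ) < 1 / H := by positivity
                                                      linarith) (H * z)
    have e1 : ((H * z : ℕ) : ℝ) * (1 / H) = z := by push_cast; field_simp
    have e2 : (1 + 1 / H : ℝ) = (H + 1) / H := by field_simp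
    rw [e1, e2, div_pow, le_div_iff₀ (by positivity)] at this
    have h3 : (z : ℝ) * (H : ℝ) ^ (H * z) ≤ ((H : ℝ) + 1) ^ (H * z) := by
      have : (0 : ℝ) < (H : ℝ) ^ (H * z) := by positivity
      nlinarith
    exact_mod_cast h3
  have := Nat.mul_le_mul h1 h1
  calc z ^ 2 * H ^ (2 * H * z) = z * H ^ (H * z) * (z * H ^ (H * z)) := by ring
    _ ≤ (H + 1) ^ (H * z) * (H + 1) ^ (H * z) := this
    _ = (H + 1) ^ (2 * H * z) := by ring

/-- key lemma: many vertices within `z ^ 2` of the top -/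
lemma key (k : ℕ) (hpos : 0 < k) : ∃ C : ℕ,
    ∀ (V : Type) [DecidableEq V] (G : SimpleGraph V) [DecidableRel G.Adj] (A : Finset V)
      (D z : ℕ), 0 < z → A.card ≤ z ^ 4 → (∀ v ∈ A, dg G A v ≤ D) →
      2 ^ (k + k) ≤ (A.filter (fun v => D ≤ dg G A v + z ^ 2)).card → Win G k A (C * z ^ 2) := by
  obtain ⟨C, E, H, R, hH, h⟩ := iterate k hpos
  set c := 2 * H * (R * (1 + E) + E) + (1 + E) with hc
  have hc0 : 0 < c := by positivity
  refine ⟨C * c ^ 2, fun V _ G _ A D z hz hA hD hF => ?_⟩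
  obtain ⟨W, h1, h2, h3⟩ := ramsey_hom (G := G) k _ hF
  have hWA : W ⊆ A := h1.trans (filter_subset _ _)
  have := h V G A D (c ^ 2 * z ^ 2) (c * z) (c * z) (by positivity) (by nlinarith [Nat.mul_pos hc0 hz]) hD
    (2 * H * z) W (z ^ 2) (z ^ 2) (z ^ 4) hWA h2 h3 (fun w hw => (mem_filter.1 (h1 hw)).2)
    (fun u hu w hw => (hD u (hWA hu)).trans (mem_filter.1 (h1 hw)).2)
    (by have : (nb G A W).card ≤ A.card := card_filter_le _ _
        omega)
    (by
      have e1 : z ^ 2 + E * z ^ 2 + 2 * H * z * (c * z * R * (1 + E) + E * (c * z)) =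
          ((1 + E) + c * (2 * H * (R * (1 + E) + E))) * z ^ 2 := by ring
      rw [e1]
      apply Nat.mul_le_mul_right
      have e2 : c ^ 2 = c * (2 * H * (R * (1 + E) + E)) + c * (1 + E) := by
        rw [pow_two, ← mul_add]
      have e3 : 1 + E ≤ c * (1 + E) := Nat.le_mul_of_pos_left _ hc0
      omega)
    (by
      have b := bern H z hH
      have e : 1 ≤ c ^ 2 := Nat.one_le_pow _ _ hc0
      calc z ^ 4 * H ^ (2 * H * z) = 1 * z ^ 2 * (z ^ 2 * H ^ (2 * H * z)) := by ring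
        _ ≤ c ^ 2 * z ^ 2 * (H + 1) ^ (2 * H * z) :=
          Nat.mul_le_mul (Nat.mul_le_mul_right _ e) b)
  rwa [← mul_assoc] at this

lemma peel (k : ℕ) (hpos : 0 < k) : ∃ C K : ℕ,
    ∀ (V : Type) [DecidableEq V] (G : SimpleGraph V) [DecidableRel G.Adj] (z : ℕ), 0 < z →
      ∀ (j : ℕ) (A : Finset V), A.card ≤ z ^ 4 → K * (j + 1) ≤ A.card →
        (∀ v ∈ A, dg G A v ≤ j * z ^ 2) → Win G k A (K * j + C * z ^ 2) := by
  obtain ⟨C, hC⟩ := key k hpos
  refine ⟨C, 2 ^ (k + k), fun V _ G _ z hz j => ?_⟩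
  induction j with
  | zero =>
    intro A h1 h2 h3
    refine (hC V G A 0 z hz h1 (by simpa using h3) ?_).mono (by omega)
    rw [filter_true_of_mem (fun _ _ => Nat.zero_le _)]
    omega
  | succ j ih =>
    intro A h1 h2 h3
    by_cases hF : 2 ^ (k + k) ≤ (A.filter (fun v => (j + 1) * z ^ 2 ≤ dg G A v + z ^ 2)).card
    · exact (hC V G A _ z hz h1 h3 hF).mono (by omega)
    push Not at hF
    set F := A.filter (fun v => (j + 1) * z ^ 2 ≤ dg G A v + z ^ 2) with hFd
    have e : 2 ^ (k + k) * (j + 1 + 1) = 2 ^ (k + k) * (j + 1) + 2 ^ (k + k) := by ring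
    have e' : 2 ^ (k + k) * (j + 1) = 2 ^ (k + k) * j + 2 ^ (k + k) := by ring
    have := ih (A \ F) ((card_le_card sdiff_subset).trans h1)
      (by have := le_card_sdiff F A; omega) (by
        intro v hv
        rw [mem_sdiff] at hv
        have a1 : ¬ (j + 1) * z ^ 2 ≤ dg G A v + z ^ 2 := fun h => hv.2 (mem_filter.2 ⟨hv.1, h⟩)
        have a2 := dg_sdiff_le (G := G) A F v
        have a3 : (j + 1) * z ^ 2 = j * z ^ 2 + z ^ 2 := by ring
        omega)
    exact (this.del hF.le).mono (by omega)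

theorem caro_yuster (k : ℕ) : ∃ C : ℝ, ∃ N : ℕ,
    ∀ (V : Type) [Fintype V] [DecidableEq V] (G : SimpleGraph V) [DecidableRel G.Adj],
      N ≤ Fintype.card V →
      ∃ S : Finset V,
        (((Fintype.card V - S.card : ℕ) : ℝ) ≤ C * Real.sqrt (Fintype.card V)) ∧
        k ≤ (S.filter (fun v => ∀ w ∈ S, dg G S w ≤ dg G S v)).card := by
  rcases Nat.eq_zero_or_pos k with rfl | hpos
  · exact ⟨0, 0, fun V _ _ G _ _ => ⟨univ, by simp, Nat.zero_le _⟩⟩
  obtain ⟨C, K, h⟩ := peel k hpos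
  refine ⟨((K + C) * 4 : ℕ), (5 * K + 1) ^ 2, fun V _ _ G _ hN => ?_⟩
  set n := Fintype.card V with hn
  set q := Nat.sqrt n with hq
  set y := Nat.sqrt q with hy
  have q1 : q * q ≤ n := Nat.sqrt_le n
  have q2 : n < (q + 1) * (q + 1) := Nat.lt_succ_sqrt n
  have y1 : y * y ≤ q := Nat.sqrt_le q
  have y2 : q < (y + 1) * (y + 1) := Nat.lt_succ_sqrt q
  have q3 : 5 * K + 1 ≤ q := by
    rw [hq, Nat.le_sqrt, ← pow_two]
    exact hN
  have y3 : 1 ≤ y := by
    rw [hy, Nat.le_sqrt]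
    omega
  have z1 : (y + 1) ^ 2 ≤ 4 * q := by nlinarith
  have z2 : n ≤ (y + 1) ^ 4 := by
    have : (q + 1) * (q + 1) ≤ ((y + 1) * (y + 1)) * ((y + 1) * (y + 1)) :=
      Nat.mul_le_mul y2 y2
    nlinarith
  obtain ⟨S, _, h2, h3⟩ := h V G (y + 1) (by omega) ((y + 1) ^ 2) univ (by simpa using z2)
    (by
      rw [card_univ]
      have : K * ((y + 1) ^ 2 + 1) ≤ K * (5 * q) := Nat.mul_le_mul_left _ (by omega)
      nlinarith)
    (by
      intro v _
      have : dg G univ v ≤ n := (card_filter_le _ _).trans (by simp [hn])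
      nlinarith)
  refine ⟨S, ?_, by convert h3⟩
  rw [card_univ] at h2
  have a1 : n - S.card ≤ (K + C) * 4 * q := by
    have : K * (y + 1) ^ 2 + C * (y + 1) ^ 2 ≤ (K + C) * 4 * q := by
      rw [← add_mul, mul_assoc]
      exact Nat.mul_le_mul_left _ z1
    omega
  have a2 : (q : ℝ) ≤ Real.sqrt n := by
    apply Real.le_sqrt_of_sq_le
    exact_mod_cast (by nlinarith : q ^ 2 ≤ n)
  calc ((n - S.card : ℕ) : ℝ) ≤ (((K + C) * 4 * q : ℕ) : ℝ) := by exact_mod_cast a1
    _ = (((K + C) * 4 : ℕ) : ℝ) * q := by push_cast; ring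
    _ ≤ _ := mul_le_mul_of_nonneg_left a2 (by positivity)

end Pool.Agent.H84Z.CY
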