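import Pool.Agent.H84Z.CY.Ic

set_option autoImplicit false
set_option linter.unusedSectionVars false

namespace Pool.Agent.H84Z.CY

open Finset

variable {V : Type} [DecidableEq V] {G : SimpleGraph V} [DecidableRel G.Adj]

lemma card_nb_sdiff_cm {A W : Finset V} {D P : ℕ} (hρ : ∀ w ∈ W, D ≤ dg G A w + P)
    (hU : (nb G A W).card ≤ D + P) : (nb G A W \ cm G A W).card ≤ W.card * (2 * P) := by
  have hsub : nb G A W \ cm G A W ⊆ W.biUnion (fun w => (nb G A W).filter (fun x => ¬ G.Adj w x)) := by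
    intro x hx
    rw [mem_sdiff] at hx
    by_contra hcon
    apply hx.2
    refine mem_cm.2 ⟨(mem_nb.1 hx.1).1, fun w hw => ?_⟩
    by_contra hn
    exact hcon (mem_biUnion.2 ⟨w, hw, mem_filter.2 ⟨hx.1, hn⟩⟩)
  refine (card_le_card hsub).trans (card_biUnion_le_card_mul _ _ _ ?_)
  intro w hw
  have h1 := card_filter_add_card_filter_not (s := nb G A W) (fun x => G.Adj w x)
  have h2 : dg G A w ≤ ((nb G A W).filter (fun x => G.Adj w x)).card := by
    apply dg_le_of_subset
    intro x hx hadj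
    exact mem_filter.2 ⟨mem_nb.2 ⟨hx, w, hw, hadj⟩, hadj⟩
  have := hρ w hw
  omega

lemma twin_clq (k : ℕ) (A W : Finset V) (D P : ℕ) (hWA : W ⊆ A) (hk : W.card = k)
    (hc : Clq G W) (hD : ∀ v ∈ A, dg G A v ≤ D) (hρ : ∀ w ∈ W, D ≤ dg G A w + P)
    (hU : (nb G A W).card ≤ D + P) : Win G k A ((3 * k + 2 * k ^ 2) * P) := by
  rcases Nat.eq_zero_or_pos k with rfl | hpos
  · exact (win_of_top hD (Nat.zero_le _)).mono (Nat.zero_le _)
  obtain ⟨w0, hw0⟩ : W.Nonempty := card_pos.1 (hk ▸ hpos)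
  set U := nb G A W with hUd
  set Q := cm G A W with hQd
  set Y := U \ (Q ∪ W) with hYd
  have hY : Y.card ≤ k * (2 * P) := by
    rw [← hk]
    refine le_trans (card_le_card ?_) (card_nb_sdiff_cm hρ hU)
    exact sdiff_subset_sdiff Subset.rfl subset_union_left
  have hin : ∀ x ∈ A \ Y, ∀ w ∈ W, G.Adj w x → x ∈ Q ∪ W := by
    intro x hx w hw hadj
    rw [mem_sdiff] at hx
    by_contra hcon
    exact hx.2 (mem_sdiff.2 ⟨mem_nb.2 ⟨hx.1, w, hw, hadj⟩, hcon⟩)
  have hdg : ∀ w ∈ W, dg G (A \ Y) w = (Q ∪ W).card - 1 := by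
    intro w hw
    rw [← card_erase_of_mem (mem_union_right Q hw)]
    unfold dg
    congr 1
    ext x
    rw [mem_filter, mem_erase]
    constructor
    · rintro ⟨h1, h2⟩
      exact ⟨h2.ne', hin x h1 w hw h2⟩
    · rintro ⟨h1, h2⟩
      have hxY : x ∉ Y := fun h => (mem_sdiff.1 h).2 h2
      rcases mem_union.1 h2 with h | h
      · exact ⟨mem_sdiff.2 ⟨(mem_cm.1 h).1, hxY⟩, (mem_cm.1 h).2 w hw⟩
      · exact ⟨mem_sdiff.2 ⟨hWA h, hxY⟩, hc w hw x h (Ne.symm h1)⟩
  have key := down (G := G) k W hk.ge ((Q ∪ W).card - 1) (P + k * (2 * P)) (A \ Y)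
    (fun w hw => mem_sdiff.2 ⟨hWA hw, fun h => (mem_sdiff.1 h).2 (mem_union_right _ hw)⟩) hdg
    (by
      intro v hv
      have h1 := dg_sdiff_le (G := G) A Y v
      have h2 := hD v (mem_sdiff.1 hv).1
      have h3 := hρ w0 hw0
      have h4 := le_dg_sdiff (G := G) A Y w0
      have h5 := hdg w0 hw0
      omega)
    (by
      intro X _ _ v hv hvW hlt
      by_cases hvz : ∀ w ∈ W, ¬ G.Adj w v
      · exact ⟨v, hv, hvW, hvz, Or.inl rfl⟩
      push Not at hvz
      obtain ⟨w, hw, hadj⟩ := hvz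
      have hvQ := hin v (mem_sdiff.1 hv).1 w hw hadj
      by_contra hcon
      have : dg G ((A \ Y) \ X) v ≤ ((Q ∪ W).erase v).card := by
        apply dg_le_of_subset
        intro x hx hvx
        refine mem_erase.2 ⟨hvx.ne', ?_⟩
        by_contra hx2
        apply hcon
        refine ⟨x, hx, fun h => hx2 (mem_union_right _ h), fun w' hw' h => ?_, Or.inr hvx⟩
        exact hx2 (hin x (mem_sdiff.1 hx).1 w' hw' h)
      rw [card_erase_of_mem hvQ] at this
      omega)
  exact (key.del hY).mono (le_of_eq (by ring))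

/-- vertices of `Q` whose neighbourhood is within `t` of `Q` -/
def bad (G : SimpleGraph V) [DecidableRel G.Adj] (A Q : Finset V) (t : ℕ) : Finset V :=
  Q.filter (fun v => (Q.filter (fun x => ¬ G.Adj v x)).card ≤ t ∧ dg G (A \ Q) v ≤ t)

lemma few_bad (k : ℕ) (A W Q : Finset V) (t0 s t : ℕ) (hWA : W ⊆ A) (hk : W.card = k)
    (hpos : 0 < k) (hQA : Q ⊆ A) (hWQ : ∀ w ∈ W, w ∉ Q)
    (hN : ∀ w ∈ W, ∀ x ∈ A, G.Adj w x ↔ x ∈ Q)
    (hD : ∀ v ∈ A, dg G A v ≤ Q.card + t0) (hb : (bad G A Q t).card ≤ s)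
    (h1 : k + s ≤ t) (h2 : k * (t0 + s) + k ≤ t) : Win G k A (s + k * (t0 + s)) := by
  obtain ⟨w0, hw0⟩ : W.Nonempty := card_pos.1 (hk ▸ hpos)
  set B := bad G A Q t with hB
  have hBQ : B ⊆ Q := filter_subset _ _
  have hdg : ∀ w ∈ W, dg G (A \ B) w = (Q \ B).card := by
    intro w hw
    unfold dg
    congr 1
    ext x
    simp only [mem_filter, mem_sdiff]
    constructor
    · rintro ⟨⟨a1, a2⟩, a3⟩
      exact ⟨(hN w hw x a1).1 a3, a2⟩
    · rintro ⟨a1, a2⟩
      exact ⟨⟨hQA a1, a2⟩, (hN w hw x (hQA a1)).2 a1⟩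
  have hQB := le_card_sdiff B Q
  have key := down (G := G) k W hk.ge (Q \ B).card (t0 + s) (A \ B)
    (fun w hw => mem_sdiff.2 ⟨hWA hw, fun h => hWQ w hw (hBQ h)⟩) hdg
    (by
      intro v hv
      have h1 := dg_sdiff_le (G := G) A B v
      have h2 := hD v (mem_sdiff.1 hv).1
      omega)
    (by
      intro X hX _ v hv hvW hlt
      have hvA : v ∈ A := (mem_sdiff.1 (mem_sdiff.1 hv).1).1
      by_cases hvQ : v ∈ Q
      swap
      · exact ⟨v, hv, hvW, fun w hw h => hvQ ((hN w hw v hvA).1 h), Or.inl rfl⟩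
      by_contra hcon
      have hall : ∀ x ∈ (A \ B) \ X, G.Adj v x → x ∈ W ∨ x ∈ Q := by
        intro x hx hvx
        by_contra hx2
        push Not at hx2
        apply hcon
        refine ⟨x, hx, hx2.1, fun w hw h => hx2.2 ?_, Or.inr hvx⟩
        exact (hN w hw x (mem_sdiff.1 (mem_sdiff.1 hx).1).1).1 h
      have a1 : dg G ((A \ B) \ X) v ≤ ((Q \ B).filter (fun x => G.Adj v x) ∪ W).card := by
        apply dg_le_of_subset
        intro x hx hvx
        rcases hall x hx hvx with h | h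
        · exact mem_union_right _ h
        · exact mem_union_left _ (mem_filter.2
            ⟨mem_sdiff.2 ⟨h, (mem_sdiff.1 (mem_sdiff.1 hx).1).2⟩, hvx⟩)
      have a2 := card_union_le ((Q \ B).filter (fun x => G.Adj v x)) W
      have a3 := card_filter_add_card_filter_not (s := Q \ B) (fun x => G.Adj v x)
      have a4 : (Q.filter (fun x => ¬ G.Adj v x)).card ≤
          ((Q \ B).filter (fun x => ¬ G.Adj v x) ∪ B).card := by
        apply card_le_card
        intro x hx
        rw [mem_filter] at hx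
        by_cases hxB : x ∈ B
        · exact mem_union_right _ hxB
        · exact mem_union_left _ (mem_filter.2 ⟨mem_sdiff.2 ⟨hx.1, hxB⟩, hx.2⟩)
      have a5 := card_union_le ((Q \ B).filter (fun x => ¬ G.Adj v x)) B
      have a6 : dg G (A \ Q) v ≤ (X ∪ W).card := by
        apply dg_le_of_subset
        intro x hx hvx
        rw [mem_sdiff] at hx
        by_cases hxX : x ∈ X
        · exact mem_union_left _ hxX
        · rcases hall x (mem_sdiff.2 ⟨mem_sdiff.2 ⟨hx.1, fun h => hx.2 (hBQ h)⟩, hxX⟩) hvx with h | h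
          · exact mem_union_right _ h
          · exact absurd h hx.2
      have a7 := card_union_le X W
      apply (mem_sdiff.1 (mem_sdiff.1 hv).1).2
      exact mem_filter.2 ⟨hvQ, by omega, by omega⟩)
  exact key.del hb

lemma twin_ind_core (k : ℕ) (A W Q : Finset V) (u : ℕ) (hWA : W ⊆ A) (hk : W.card = k)
    (hpos : 0 < k) (hu : 0 < u) (hQA : Q ⊆ A) (hWQ : ∀ w ∈ W, w ∉ Q)
    (hN : ∀ w ∈ W, ∀ x ∈ A, G.Adj w x ↔ x ∈ Q)
    (hD : ∀ v ∈ A, dg G A v ≤ Q.card + u) :
    Win G k A ((3 * k + 2 * k ^ 2) * ((k + 1) * ((3 * k ^ 2) ^ k * u))) := by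
  have hg : 1 ≤ 3 * k ^ 2 := by nlinarith
  have claim : ∀ j, j ≤ k →
      Win G k A ((3 * k + 2 * k ^ 2) * ((k + 1) * ((3 * k ^ 2) ^ k * u))) ∨
        ∃ W', W' ⊆ bad G A Q ((3 * k ^ 2) ^ j * u) ∧ W'.card = j ∧ Clq G W' := by
    intro j
    induction j with
    | zero => intro _; exact Or.inr ⟨∅, empty_subset _, rfl, by simp [Clq]⟩
    | succ j ih =>
      intro hj
      rcases ih (by omega) with h | ⟨W', h1, h2, h3⟩
      · exact Or.inl h
      set t := (3 * k ^ 2) ^ j * u with ht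
      have hut : u ≤ t := Nat.le_mul_of_pos_left _ (Nat.pos_of_ne_zero (by positivity))
      have htk : t ≤ (3 * k ^ 2) ^ k * u :=
        Nat.mul_le_mul_right _ (Nat.pow_le_pow_right hg (by omega))
      have e : (3 * k ^ 2) ^ (j + 1) * u = 3 * k ^ 2 * t := by rw [ht]; ring
      rw [e]
      have hkt : t ≤ k * t := Nat.le_mul_of_pos_left _ hpos
      have hkt2 : k * t ≤ k * (k * t) := Nat.mul_le_mul_left _ hkt
      have hkt3 : k ≤ k * t := Nat.le_mul_of_pos_right _ (by omega)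
      have hkt4 : k * u ≤ k * t := Nat.mul_le_mul_left _ hut
      have e3 : 3 * k ^ 2 * t = 3 * (k * (k * t)) := by ring
      by_cases hb : (bad G A Q (3 * k ^ 2 * t)).card ≤ k * t
      · left
        have := few_bad k A W Q u (k * t) (3 * k ^ 2 * t) hWA hk hpos hQA hWQ hN hD hb
          (by omega) (by rw [mul_add]; omega)
        refine this.mono ?_
        have b1 : k * t + k * (u + k * t) ≤ (3 * k + 2 * k ^ 2) * t := by
          have : (3 * k + 2 * k ^ 2) * t = 3 * (k * t) + 2 * (k * (k * t)) := by ring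
          rw [mul_add]; omega
        refine b1.trans (Nat.mul_le_mul_left _ (htk.trans ?_))
        exact Nat.le_mul_of_pos_left _ (by omega)
      · right
        push Not at hb
        have hc : (W'.biUnion (fun w => Q.filter (fun x => ¬ G.Adj w x))).card ≤ k * t := by
          refine (card_biUnion_le_card_mul _ _ t ?_).trans (Nat.mul_le_mul_right _ (by omega))
          intro w hw
          exact (mem_filter.1 (h1 hw)).2.1
        obtain ⟨v, hv, hv2⟩ := exists_mem_notMem_of_card_lt_card (lt_of_le_of_lt hc hb)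
        have hvQ : v ∈ Q := (mem_filter.1 hv).1
        have hadj : ∀ w ∈ W', G.Adj w v := by
          intro w hw
          by_contra hn
          exact hv2 (mem_biUnion.2 ⟨w, hw, mem_filter.2 ⟨hvQ, hn⟩⟩)
        have hvW : v ∉ W' := fun h => G.irrefl (hadj v h)
        refine ⟨insert v W', ?_, by rw [card_insert_of_notMem hvW, h2], ?_⟩
        · intro x hx
          rcases mem_insert.1 hx with rfl | hx
          · exact hv
          · have := mem_filter.1 (h1 hx)
            exact mem_filter.2 ⟨this.1, by omega, by omega⟩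
        · intro x hx y hy hxy
          rcases mem_insert.1 hx with rfl | hx' <;> rcases mem_insert.1 hy with rfl | hy'
          · exact absurd rfl hxy
          · exact (hadj y hy').symm
          · exact hadj x hx'
          · exact h3 x hx' y hy' hxy
  rcases claim k le_rfl with h | ⟨W', h1, h2, h3⟩
  · exact h
  set t := (3 * k ^ 2) ^ k * u with ht
  have hut : u ≤ t := Nat.le_mul_of_pos_left _ (Nat.pos_of_ne_zero (by positivity))
  have hkt : t ≤ k * t := Nat.le_mul_of_pos_left _ hpos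
  have e : (k + 1) * t = k * t + t := by ring
  apply twin_clq k A W' (Q.card + u) ((k + 1) * t)
    (fun x hx => hQA (mem_filter.1 (h1 hx)).1) h2 h3 hD
  · intro w hw
    have a1 := (mem_filter.1 (h1 hw)).2.1
    have a2 := card_filter_add_card_filter_not (s := Q) (fun x => G.Adj w x)
    have a3 : (Q.filter (fun x => G.Adj w x)).card ≤ dg G A w := dg_mono (G := G) hQA w
    omega
  · have hsub : nb G A W' ⊆ Q ∪ W'.biUnion (fun w => (A \ Q).filter (fun x => G.Adj w x)) := by
      intro x hx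
      obtain ⟨hxA, w, hw, hadj⟩ := mem_nb.1 hx
      by_cases hxQ : x ∈ Q
      · exact mem_union_left _ hxQ
      · exact mem_union_right _ (mem_biUnion.2 ⟨w, hw, mem_filter.2 ⟨mem_sdiff.2 ⟨hxA, hxQ⟩, hadj⟩⟩)
    have a1 := card_le_card hsub
    have a2 := card_union_le Q (W'.biUnion (fun w => (A \ Q).filter (fun x => G.Adj w x)))
    have a3 := card_biUnion_le_card_mul W' (fun w => (A \ Q).filter (fun x => G.Adj w x)) t
      (fun w hw => (mem_filter.1 (h1 hw)).2.2)
    rw [h2] at a3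
    omega

/-- near-twins: a homogeneous `k`-set near the top whose neighbourhoods almost coincide -/
lemma twin (k : ℕ) : ∃ C : ℕ, ∀ (V : Type) [DecidableEq V] (G : SimpleGraph V)
    [DecidableRel G.Adj] (A W : Finset V) (D P : ℕ), 0 < P → W ⊆ A → W.card = k → Hom G W →
    (∀ v ∈ A, dg G A v ≤ D) → (∀ w ∈ W, D ≤ dg G A w + P) → (nb G A W).card ≤ D + P →
    Win G k A (C * P) := by
  refine ⟨(3 * k + 2 * k ^ 2) + 2 * k +
    (3 * k + 2 * k ^ 2) * ((k + 1) * ((3 * k ^ 2) ^ k * (2 * k + 1))), ?_⟩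
  intro V _ G _ A W D P hP hWA hk hh hD hρ hU
  rcases Nat.eq_zero_or_pos k with rfl | hpos
  · exact (win_of_top hD (Nat.zero_le _)).mono (Nat.zero_le _)
  rcases hh with hc | hi
  · exact (twin_clq k A W D P hWA hk hc hD hρ hU).mono
      (Nat.mul_le_mul_right _ (by omega))
  obtain ⟨w0, hw0⟩ : W.Nonempty := card_pos.1 (hk ▸ hpos)
  have hY := card_nb_sdiff_cm hρ hU
  rw [hk] at hY
  set Y := nb G A W \ cm G A W with hYd
  set Q := cm G A W with hQd
  have hN : ∀ w ∈ W, ∀ x ∈ A \ Y, G.Adj w x ↔ x ∈ Q := by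
    intro w hw x hx
    rw [mem_sdiff] at hx
    constructor
    · intro h
      by_contra hn
      exact hx.2 (mem_sdiff.2 ⟨mem_nb.2 ⟨hx.1, w, hw, h⟩, hn⟩)
    · intro h
      exact (mem_cm.1 h).2 w hw
  have key := twin_ind_core (G := G) k (A \ Y) W Q ((2 * k + 1) * P)
    (fun w hw => mem_sdiff.2 ⟨hWA hw, fun h => by
      obtain ⟨_, w', hw', hadj⟩ := mem_nb.1 (mem_sdiff.1 h).1
      exact hi w' hw' w hw hadj⟩) hk hpos (by positivity)
    (fun x hx => mem_sdiff.2 ⟨(mem_cm.1 hx).1, fun h => (mem_sdiff.1 h).2 hx⟩)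
    (fun w hw h => G.irrefl ((mem_cm.1 h).2 w hw)) hN
    (by
      intro v hv
      have a1 := dg_sdiff_le (G := G) A Y v
      have a2 := hD v (mem_sdiff.1 hv).1
      have a3 := hρ w0 hw0
      have a4 := le_dg_sdiff (G := G) A Y w0
      have a5 : dg G (A \ Y) w0 ≤ Q.card :=
        dg_le_of_subset (fun x hx h => (hN w0 hw0 x hx).1 h)
      have e : (2 * k + 1) * P = k * (2 * P) + P := by ring
      omega)
  refine (key.del hY).mono ?_
  have : (3 * k + 2 * k ^ 2 + 2 * k +
      (3 * k + 2 * k ^ 2) * ((k + 1) * ((3 * k ^ 2) ^ k * (2 * k + 1)))) * P =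
      (3 * k + 2 * k ^ 2) * P + (k * (2 * P) +
      (3 * k + 2 * k ^ 2) * ((k + 1) * ((3 * k ^ 2) ^ k * ((2 * k + 1) * P)))) := by ring
  omega

end Pool.Agent.H84Z.CY
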